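import Pool.Agent.EDG.StmtsC

/-!
# Squad EDG, row BGA
-/

namespace Pool.Agent.EDG.H38

open Polynomial Pool.Agent.EDG.C

theorem bga (hBig : BigStmt) (hCpl : CplStmt) : BgaStmt := by
  intro n m R1 hn h1 h2 h3 h4 h5
  obtain ⟨R, r1, r2, r3, r4, r5⟩ := hCpl n R1 hn h1 h2 h3 h4
  exact hBig n m R hn r1 r2 r3 r5 (r4.trans h5)

end Pool.Agent.EDG.H38
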