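import Pool.Agent.EDG.Stmts

/-!
# Squad EDG, row EXP: expansion in powers of `2 X`
-/

set_option autoImplicit false

namespace Pool.Agent.EDG.H38

open Polynomial Finset

/-- `h N` is a polynomial in `2 X` and `y` (outer variable `2 X`, inner variable `y`) -/
theorem exp_h : ∀ N : ℕ, ∃ W : ℤ[X][X], ∀ (R : Type) [CommRing R] (b t : R),
    ev b t (h N) = ev t (2 * b) W := by
  intro N
  induction N using Nat.strong_induction_on with
  | _ N ih =>
    have key : ∀ k, (∃ W : ℤ[X][X], ∀ (R : Type) [CommRing R] (b t : R),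
        ev b t (h k) = ev t (2 * b) W) → ∃ W : ℤ[X][X], ∀ (R : Type) [CommRing R] (b t : R),
        ev b t ((h k).comp F) = ev t (2 * b) W := by
      rintro k ⟨W, hW⟩
      refine ⟨ev (C X ^ 2 + X * C X : ℤ[X][X]) X W, fun R _ b t => ?_⟩
      rw [ev_comp_F, hW R b (t ^ 2 + 2 * b * t), ev_map, map_add, map_pow, map_mul, ev_X, ev_C,
        aeval_X]
    rcases Nat.even_or_odd' N with ⟨k, hk | hk⟩
    · rcases Nat.eq_zero_or_pos k with h0 | h0
      · subst h0; subst hk
        exact ⟨1, fun R _ b t => by simp [h_zero]⟩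
      · obtain ⟨W, hW⟩ := key k (ih k (by omega))
        exact ⟨W, fun R _ b t => by rw [hk, h_two_mul]; exact hW R b t⟩
    · obtain ⟨W, hW⟩ := key k (ih k (by omega))
      refine ⟨C X * W, fun R _ b t => ?_⟩
      rw [hk, h_two_mul_add_one, map_mul, map_mul, hW R b t]
      simp

theorem exp : ExpStmt := by
  intro s j p N hp
  obtain ⟨W, hW⟩ := exp_h N
  set P : ℤ[X][X] := ∑ i ∈ range (j + 1), C (C (2 ^ (j - i) * p.coeff i)) * X ^ i with hP
  have hPe : ∀ (R : Type) [CommRing R] (b t : R), ev t (2 * b) P = 2 ^ j * aeval b p := by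
    intro R _ b t
    rw [hP, map_sum, aeval_eq_sum_range' (Nat.lt_succ_of_le hp), mul_sum]
    refine sum_congr rfl fun i hi => ?_
    have hi' : i ≤ j := Nat.lt_succ_iff.1 (mem_range.1 hi)
    have h2 : (2 : R) ^ j = 2 ^ (j - i) * 2 ^ i := by rw [← pow_add, Nat.sub_add_cancel hi']
    rw [map_mul, map_pow, ev_X, ev_C, aeval_C, h2, mul_pow]
    simp only [algebraMap_int_eq, eq_intCast, Int.cast_mul, Int.cast_pow, Int.cast_ofNat,
      zsmul_eq_mul]
    ring
  refine ⟨fun l => (P * W).coeff l, fun R _ b t => ?_⟩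
  have h1 : 2 ^ j * aeval b p * ev b t (h N) = ev t (2 * b) (P * W) := by
    rw [map_mul, hPe R b t, hW R b t]
  have h2 : ev t (2 * b) (P * W) = ∑ l ∈ range (s + ((P * W).natDegree + 1)),
      aeval t ((P * W).coeff l) * (2 * b) ^ l := by
    have h3 := eval₂_eq_sum_range' (eval₂RingHom (Int.castRingHom R) t)
      (p := P * W) (n := s + ((P * W).natDegree + 1)) (by omega) (2 * b)
    rw [ev, coe_eval₂RingHom, h3]
    refine sum_congr rfl fun l _ => ?_
    simp [aeval_def]
  refine ⟨∑ l ∈ range ((P * W).natDegree + 1),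
    aeval t ((P * W).coeff (s + l)) * (2 ^ l * b ^ (s + l)), ?_⟩
  rw [h1, h2, sum_range_add, mul_sum]
  congr 1
  · exact sum_congr rfl fun l _ => mul_comm _ _
  · refine sum_congr rfl fun l _ => ?_
    rw [mul_pow, pow_add 2 s l]
    ring

end Pool.Agent.EDG.H38
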